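import Pool.Agent.X85.SMc

set_option autoImplicit false

/-!
# The standard maps are asymptotically mixing, at all times `n = o(|a|)`, for every parameter

Let `S_a (x, y) = (2x - y + a sin 2πx, x)` on the torus.  Mixing for one parameter (which would imply
ergodicity) says that `∫ F(S_a^n) G → ∫ F ∫ G` as `n → ∞`.  Here: `∫ F(S_a^n) G → ∫ F ∫ G` for all
`F, G` in `L²` of the torus, whenever `a → ±∞` and `n ≥ 3`, `n / |a| → 0`; no parameter is excluded
and `n` may or may not tend to infinity.  For product observables the correlation is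
`O(√(n / |a|))` for all `|a| ≥ 1` and `n ≥ 3`.
-/

open Real MeasureTheory Filter Topology

namespace Pool.Agent.Results.MP_9ee088_an.AsymptoticMixing

/-- The torus `ℝ² / ℤ²`, with its Lebesgue measure `volume`. -/
abbrev Torus := UnitAddCircle × UnitAddCircle

/-- `T` is the standard map `S_a` of the torus. -/
def IsStandardMap (a : ℝ) (T : Torus → Torus) : Prop :=
  ∀ x y : ℝ, T ((x : UnitAddCircle), (y : UnitAddCircle)) =
    (((2 * x - y + a * sin (2 * π * x) : ℝ) : UnitAddCircle), (x : UnitAddCircle))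

/-- Product observables `F(x, y) = g(x) H(y)`: `g` is continuous on the circle, `H` is of class `C¹`
with period one, both are bounded by one, and the total variation of `H` over a period is at
most `V`. -/
def ProductObservable (V : ℝ) (F : Torus → ℝ) : Prop :=
  ∃ (g : UnitAddCircle → ℝ) (H : ℝ → ℝ), Continuous g ∧ (∀ x, |g x| ≤ 1) ∧ ContDiff ℝ 1 H ∧
    Function.Periodic H 1 ∧ (∀ y, |H y| ≤ 1) ∧ (∫ y in (0:ℝ)..1, |deriv H y|) ≤ V ∧
    ∀ (x : UnitAddCircle) (y : ℝ), F (x, (y : UnitAddCircle)) = g x * H y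

/-- **Asymptotic mixing of the standard maps.** -/
theorem result :
    -- (1) the rate for product observables, all parameters `|a| ≥ 1` and all times `n ≥ 3`
    (∃ C : ℝ, 0 < C ∧ ∀ a : ℝ, 1 ≤ |a| → ∀ T : Torus → Torus, IsStandardMap a T →
      ∀ n : ℕ, 3 ≤ n → ∀ (V : ℝ) (F G : Torus → ℝ), ProductObservable V F →
      ProductObservable V G →
      |(∫ p, F (T^[n] p) * G p) - (∫ p, F p) * ∫ p, G p| ≤ C * (1 + V) * √(n / |a|)) ∧
    -- (2) asymptotic mixing for all square integrable functions, at all times `n = o(|a|)`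
    (∀ F G : Torus → ℝ, MemLp F 2 volume → MemLp G 2 volume →
      ∀ (a : ℕ → ℝ) (T : ℕ → Torus → Torus) (n : ℕ → ℕ), (∀ j, IsStandardMap (a j) (T j)) →
      (∀ j, 3 ≤ n j) → Tendsto (fun j => |a j| / n j) atTop atTop →
      Tendsto (fun j => ∫ p, F ((T j)^[n j] p) * G p) atTop (𝓝 ((∫ p, F p) * ∫ p, G p))) := by
  refine ⟨?_, ?_⟩
  · obtain ⟨C, hC, H⟩ := X85.SMix.cor_rate
    refine ⟨C, hC, fun a ha T hT n hn V F G hF hG => ?_⟩
    rw [TH705.SM.eq_S a T hT]
    exact H a ha n hn V F G hF hG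
  · intro F G hF hG a T n hT hn hr
    have h : ∀ j, T j = TH705.SM.S (a j) := fun j => TH705.SM.eq_S (a j) (T j) (hT j)
    simp_rw [h]
    exact X85.SMix.mix_fun hn hr hF hG

end Pool.Agent.Results.MP_9ee088_an.AsymptoticMixing
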