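import Pool.Agent.X100.SM.D

set_option autoImplicit false

/-!
# Asymptotic mixing of all orders for the standard maps, for every parameter

Let `S_a (x, y) = (2x - y + a sin 2πx, x)` on the torus.

(1) The positions of an orbit at any `r` distinct times up to `N` are jointly asymptotically
independent and uniform, on every horizontal line of initial conditions: for observables
`f_1, ..., f_r` of class `C¹` the joint expectation differs from the product of the means by
`O(√(r (N + 1) / |a|))`, with an absolute constant, for every parameter `|a| ≥ 1`.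

(2) Mixing of all orders: for all bounded measurable `F_1, ..., F_r` on the torus,
`∫ ∏ F_i(S_a^(n_i)) → ∏ ∫ F_i` as `|a| → ∞`, whenever the times differ pairwise by at least two and
are `o(|a|)`; no parameter is excluded.  (The gap two is necessary: `S_a^(n+1)` and `S_a^n` share a
coordinate.)
-/

open Real MeasureTheory Filter Topology Function

namespace Pool.Agent.Results.MP_9ee088_an.MixingOfAllOrders

/-- The torus `ℝ² / ℤ²`, with its Lebesgue measure `volume`. -/
abbrev Torus := UnitAddCircle × UnitAddCircle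

/-- `T` is the standard map `S_a` of the torus. -/
def IsStandardMap (a : ℝ) (T : Torus → Torus) : Prop :=
  ∀ x y : ℝ, T ((x : UnitAddCircle), (y : UnitAddCircle)) =
    (((2 * x - y + a * sin (2 * π * x) : ℝ) : UnitAddCircle), (x : UnitAddCircle))

/-- Observables of the position: functions of class `C¹` on the circle, bounded by one, with
derivative bounded by `V`. -/
def Observable (V : ℝ) (f : UnitAddCircle → ℝ) : Prop :=
  ContDiff ℝ 1 (fun x : ℝ => f x) ∧ (∀ x, |f x| ≤ 1) ∧ ∀ x : ℝ, |deriv (fun x : ℝ => f x) x| ≤ V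

/-- The times `n 0, ..., n (r - 1)` differ pairwise by at least two. -/
def Gaps {r : ℕ} (n : Fin r → ℕ) : Prop := ∀ i k, i ≠ k → n i + 2 ≤ n k ∨ n k + 2 ≤ n i

/-- **Asymptotic independence and mixing of all orders for the standard maps.** -/
theorem result :
    -- (1) joint law of the positions, all parameters, all horizontal lines, with a rate
    (∃ C : ℝ, 0 < C ∧ ∀ a : ℝ, 1 ≤ |a| → ∀ T : Torus → Torus, IsStandardMap a T →
      ∀ (r N : ℕ) (m : Fin r → ℕ), Injective m → (∀ i, m i ≤ N) →
      ∀ (V : ℝ) (f : Fin r → UnitAddCircle → ℝ), (∀ i, Observable V (f i)) →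
      ∀ y : UnitAddCircle,
        |(∫ x : UnitAddCircle, ∏ i, f i (T^[m i] (x, y)).1) - ∏ i, ∫ x, f i x| ≤
          C * √(r * (N + 1) * (1 + V) / |a|)) ∧
    -- (2) mixing of all orders
    (∀ (r : ℕ) (F : Fin r → Torus → ℝ), (∀ i, Measurable (F i)) →
      (∃ B, ∀ i p, |F i p| ≤ B) →
      ∀ (a : ℕ → ℝ) (T : ℕ → Torus → Torus) (n : ℕ → Fin r → ℕ),
      (∀ j, IsStandardMap (a j) (T j)) → (∀ j, Gaps (n j)) →
      (∀ i, Tendsto (fun j => |a j| / (1 + n j i)) atTop atTop) →
      Tendsto (fun j => ∫ p, ∏ i, F i ((T j)^[n j i] p)) atTop (𝓝 (∏ i, ∫ p, F i p))) := by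
  refine ⟨⟨2 * TH705.SM.l0 + 4, ?_, ?_⟩, ?_⟩
  · have := TH705.SM.l0_ge
    linarith
  · intro a ha T hT r N m hm hN V f hf y
    rw [TH705.SM.eq_S a T hT]
    rcases Nat.eq_zero_or_pos r with rfl | hr
    · simp
    have : Nonempty (Fin r) := Fin.pos_iff_nonempty.1 hr
    obtain ⟨s, rfl⟩ := QuotientAddGroup.mk_surjective y
    have h := X100.SM.law_fam (κ := Fin r) m hm (N := N + 1) (fun k => Nat.lt_succ_of_le (hN k))
      (f := fun k => fun x : ℝ => f k x) (f' := fun k => deriv (fun x : ℝ => f k x))
      (fun k x => ((hf k).1.differentiable one_ne_zero x).hasDerivAt)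
      (fun k => (hf k).1.continuous_deriv le_rfl)
      (fun k x => by
        show f k ((x + 1 : ℝ) : UnitAddCircle) = f k (x : UnitAddCircle)
        rw [AddCircle.coe_add, AddCircle.coe_period, add_zero])
      (fun k x => (hf k).2.1 _) (fun k x => (hf k).2.2 x) ha s
    have e1 : (∫ x : UnitAddCircle, ∏ i, f i ((TH705.SM.S a)^[m i]
        (x, ((s : ℝ) : UnitAddCircle))).1) =
        ∫ t in (0:ℝ)..1, ∏ k, f k ((TH705.SM.X a s (m k + 1) t : ℝ) : UnitAddCircle) := by
      rw [← UnitAddCircle.intervalIntegral_preimage 0]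
      rw [zero_add]
      apply intervalIntegral.integral_congr
      intro t _
      simp only
      apply Finset.prod_congr rfl
      intro k _
      rw [TH705.SM.iter_coe]
    have e2 : ∀ i, ∫ x, f i x = ∫ x in (0:ℝ)..1, f i (x : UnitAddCircle) := by
      intro i
      rw [← UnitAddCircle.intervalIntegral_preimage 0, zero_add]
    have e3 : (QuotientAddGroup.mk s : UnitAddCircle) = ((s : ℝ) : UnitAddCircle) := rfl
    rw [e3, e1]
    simp_rw [e2]
    refine h.trans (le_of_eq ?_)
    rw [Fintype.card_fin]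
    push_cast
    ring_nf
  · intro r F hF hB a T n hT hn hr
    obtain ⟨B, hB⟩ := hB
    have h : ∀ j, T j = TH705.SM.S (a j) := fun j => TH705.SM.eq_S (a j) (T j) (hT j)
    simp_rw [h]
    rcases Nat.eq_zero_or_pos r with rfl | hr0
    · simp
    have : Nonempty (Fin r) := Fin.pos_iff_nonempty.1 hr0
    exact X100.SM.mix_all (κ := Fin r) ⟨hn, hr⟩ hF hB

end Pool.Agent.Results.MP_9ee088_an.MixingOfAllOrders
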