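import Pool.Agent.TH705.SM.CltI
import Pool.Agent.TH705.SM.CltE

set_option autoImplicit false

/-!
# Normal diffusion of the momentum of the standard map up to times `|a|^(1-ε)`, for every parameter

`F_a(x, y) = (2x - y + a sin 2πx, x)` is the lift of `S_a` to the plane.  Fix the second coordinate
`y` and choose `x` at random in `(0, 1]`.  Let `x_k` be the first coordinate of the `k`-th point of
the orbit and `p_k = x_k - x_(k-1)` the momentum (`p_0 = x - y`).  Then the Birkhoff sums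
`∑_(k < n) f(x_k)` of every `C¹` function `f` of period one and mean zero satisfy the central limit
theorem with the variance `n ∫ f²` of independent random variables, with a rate, for all `|a| ≥ 1`,
all `y` and all `n`; the rate tends to zero as soon as `n → ∞` and `n (log |a|)² / |a| → 0`.  For
`f(x) = sin 2πx` this is the quasilinear diffusion of the momentum: `p_n - p_0` is asymptotically
Gaussian with variance `n a² / 2`.
-/

open Real MeasureTheory Filter Topology ProbabilityTheory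

namespace Pool.Agent.Results.MP_9ee088_an.NormalDiffusion

/-- The lift `(x, y) ↦ (2 x - y + a sin 2 π x, x)` of `S_a` to the plane. -/
noncomputable def planeMap (a : ℝ) (p : ℝ × ℝ) : ℝ × ℝ :=
  (2 * p.1 - p.2 + a * sin (2 * π * p.1), p.1)

/-- The position `x_k`: the first coordinate of the `k`-th point of the orbit of `(x, y)`. -/
noncomputable def position (a : ℝ) (k : ℕ) (x y : ℝ) : ℝ := ((planeMap a)^[k] (x, y)).1

/-- The momentum `p_k = x_k - x_(k-1)`: the difference of the two coordinates of the `k`-th point of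
the orbit of `(x, y)`. -/
noncomputable def momentum (a : ℝ) (k : ℕ) (x y : ℝ) : ℝ :=
  ((planeMap a)^[k] (x, y)).1 - ((planeMap a)^[k] (x, y)).2

/-- The Birkhoff sum `∑_(k < n) f(x_k)` along the orbit of `(x, y)`. -/
noncomputable def birkhoff (f : ℝ → ℝ) (a : ℝ) (n : ℕ) (x y : ℝ) : ℝ :=
  ∑ k ∈ Finset.range n, f (position a k x y)

/-- The error `n^(-1/2) + (n/|a|)^(1/2) (1 + log |a|)`. -/
noncomputable def rate (a : ℝ) (n : ℕ) : ℝ := 1 / √n + √(n / |a|) * (1 + log |a|)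

/-- Observables: the functions of class `C¹` on the line with period one and mean zero. -/
structure Observable (f : ℝ → ℝ) : Prop where
  smooth : ContDiff ℝ 1 f
  periodic : Function.Periodic f 1
  mean : ∫ x in (0:ℝ)..1, f x = 0

theorem position_eq (a : ℝ) (k : ℕ) (x y : ℝ) : position a k x y = TH705.SM.X a y (k + 1) x := by
  have h := TH705.SM.iter_plane a y x k
  show ((fun p : ℝ × ℝ => (2 * p.1 - p.2 + a * sin (2 * π * p.1), p.1))^[k] (x, y)).1 = _
  rw [h]

theorem momentum_eq (a : ℝ) (n : ℕ) (x y : ℝ) : momentum a n x y - momentum a 0 x y =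
    a * ∑ k ∈ Finset.range n, sin (2 * π * TH705.SM.X a y (k + 1) x) := by
  rw [← TH705.SM.momentum a y x n]
  have h := TH705.SM.iter_plane a y x n
  have h1 : momentum a n x y = TH705.SM.X a y (n + 1) x - TH705.SM.X a y n x := by
    show ((fun p : ℝ × ℝ => (2 * p.1 - p.2 + a * sin (2 * π * p.1), p.1))^[n] (x, y)).1 -
      ((fun p : ℝ × ℝ => (2 * p.1 - p.2 + a * sin (2 * π * p.1), p.1))^[n] (x, y)).2 = _
    rw [h]
  rw [h1]
  rfl

theorem birkhoff_eq (f : ℝ → ℝ) (a : ℝ) (n : ℕ) (x y : ℝ) : birkhoff f a n x y =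
    ∑ k ∈ Finset.range n, f (TH705.SM.X a y (k + 1) x) := by
  unfold birkhoff
  simp_rw [position_eq]

theorem clt_all (M : ℝ) (hM : 0 ≤ M) : ∃ C : ℝ, 0 < C ∧ ∀ f f' : ℝ → ℝ,
    (∀ x, HasDerivAt f (f' x) x) → Continuous f' → Function.Periodic f 1 → (∀ x, |f x| ≤ M) →
    (∀ x, |f' x| ≤ M) → ∫ x in (0:ℝ)..1, f x = 0 → ∀ v : ℝ, ∫ x in (0:ℝ)..1, f x ^ 2 = v →
    ∀ a : ℝ, 1 ≤ |a| → ∀ n : ℕ, 1 ≤ n → ∀ s τ : ℝ,
    ‖(∫ t in (0:ℝ)..1, TH705.SM.E (τ / √n * ∑ k ∈ Finset.range n, f (TH705.SM.X a s (k + 1) t))) -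
      ((exp (-(τ ^ 2 * v / 2)) : ℝ) : ℂ)‖ ≤ C * (1 + |τ|) ^ 4 * rate a n :=
  TH705.SM.clt2 hM

theorem distr {f : ℝ → ℝ} (hf : Observable f) (hv : 0 < ∫ x in (0:ℝ)..1, f x ^ 2)
    {a : ℕ → ℝ} {n : ℕ → ℕ} (ha : ∀ j, 1 ≤ |a j|) (hn : ∀ j, 1 ≤ n j)
    (hr : Tendsto (fun j => rate (a j) (n j)) atTop (𝓝 0)) (y : ℕ → ℝ) (z : ℝ) :
    Tendsto (fun j => volume {x : ℝ | x ∈ Set.Ioc (0:ℝ) 1 ∧
        birkhoff f (a j) (n j) x (y j) / √(n j) ≤ z}) atTop
      (𝓝 (gaussianReal 0 (∫ x in (0:ℝ)..1, f x ^ 2).toNNReal (Set.Iic z))) := by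
  simp_rw [birkhoff_eq]
  exact TH705.SM.clt_seq (rate := rate) clt_all
    (fun x => (hf.smooth.differentiable one_ne_zero x).hasDerivAt)
    (hf.smooth.continuous_deriv le_rfl) hf.periodic hf.mean hv rfl ha hn hr y z

/-- The sine is an observable. -/
theorem obs_sin : Observable (fun x => sin (2 * π * x)) where
  smooth := by fun_prop
  periodic := by
    intro x
    show sin (2 * π * (x + 1)) = sin (2 * π * x)
    rw [show 2 * π * (x + 1) = 2 * π * x + 2 * π by ring, sin_add_two_pi]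
  mean := TH705.SM.sin_int

/-- **Normal diffusion of the standard map up to times `|a|^(1-ε)`, for every parameter.** -/
theorem result :
    -- (1) the characteristic function of the Birkhoff sums, on every horizontal line, with a rate
    (∀ M : ℝ, 0 ≤ M → ∃ C : ℝ, 0 < C ∧ ∀ f : ℝ → ℝ, Observable f → (∀ x, |f x| ≤ M) →
      (∀ x, |deriv f x| ≤ M) → ∀ a : ℝ, 1 ≤ |a| → ∀ n : ℕ, 1 ≤ n → ∀ y τ : ℝ,
      ‖(∫ x in (0:ℝ)..1,
          Complex.exp (((τ * (birkhoff f a n x y / √n) : ℝ) : ℂ) * Complex.I)) -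
        ((exp (-(τ ^ 2 * (∫ x in (0:ℝ)..1, f x ^ 2) / 2)) : ℝ) : ℂ)‖ ≤
          C * (1 + |τ|) ^ 4 * rate a n) ∧
    -- (2) convergence in distribution to the normal law, on any horizontal lines
    (∀ f : ℝ → ℝ, Observable f → 0 < ∫ x in (0:ℝ)..1, f x ^ 2 → ∀ (a : ℕ → ℝ) (n : ℕ → ℕ),
      (∀ j, 1 ≤ |a j|) → (∀ j, 1 ≤ n j) → Tendsto (fun j => rate (a j) (n j)) atTop (𝓝 0) →
      ∀ (y : ℕ → ℝ) (z : ℝ),
      Tendsto (fun j => volume {x : ℝ | x ∈ Set.Ioc (0:ℝ) 1 ∧
        birkhoff f (a j) (n j) x (y j) / √(n j) ≤ z}) atTop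
        (𝓝 (gaussianReal 0 (∫ x in (0:ℝ)..1, f x ^ 2).toNNReal (Set.Iic z)))) ∧
    -- (3) quasilinear diffusion of the momentum: the variance is `n a² / 2`
    (∀ (a : ℕ → ℝ) (n : ℕ → ℕ), (∀ j, 1 ≤ |a j|) → (∀ j, 1 ≤ n j) →
      Tendsto (fun j => rate (a j) (n j)) atTop (𝓝 0) → ∀ (y : ℕ → ℝ) (z : ℝ),
      Tendsto (fun j => volume {x : ℝ | x ∈ Set.Ioc (0:ℝ) 1 ∧
        (momentum (a j) (n j) x (y j) - momentum (a j) 0 x (y j)) / (a j * √(n j)) ≤ z}) atTop
        (𝓝 (gaussianReal 0 (1 / 2) (Set.Iic z)))) := by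
  refine ⟨?_, ?_, ?_⟩
  · intro M hM
    obtain ⟨C, hC, H⟩ := clt_all M hM
    refine ⟨C, hC, ?_⟩
    intro f hf h1 h2 a ha n hn y τ
    have h := H f (deriv f) (fun x => (hf.smooth.differentiable one_ne_zero x).hasDerivAt)
      (hf.smooth.continuous_deriv le_rfl) hf.periodic h1 h2 hf.mean _ rfl a ha n hn y τ
    have e : ∀ x, Complex.exp (((τ * (birkhoff f a n x y / √n) : ℝ) : ℂ) * Complex.I) =
        TH705.SM.E (τ / √n * ∑ k ∈ Finset.range n, f (TH705.SM.X a y (k + 1) x)) := by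
      intro x
      unfold TH705.SM.E
      rw [birkhoff_eq]
      congr 3
      ring
    simp_rw [e]
    exact h
  · intro f hf hv a n ha hn hr y z
    exact distr hf hv ha hn hr y z
  · intro a n ha hn hr y z
    have h2 : ∫ x in (0:ℝ)..1, sin (2 * π * x) ^ 2 = 1 / 2 := TH705.SM.sin_sq_int
    have h := distr obs_sin (by rw [h2]; norm_num) ha hn hr y z
    rw [h2] at h
    have e3 : (1 / 2 : ℝ).toNNReal = 1 / 2 := by
      rw [← NNReal.coe_inj]
      rw [Real.coe_toNNReal _ (by norm_num)]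
      norm_num
    rw [e3] at h
    refine h.congr fun j => ?_
    congr 1
    ext x
    simp only [Set.mem_setOf_eq]
    have ha0 : a j ≠ 0 := by
      intro h0
      have := ha j
      rw [h0, abs_zero] at this
      linarith
    have e4 : (momentum (a j) (n j) x (y j) - momentum (a j) 0 x (y j)) / (a j * √(n j)) =
        birkhoff (fun x => sin (2 * π * x)) (a j) (n j) x (y j) / √(n j) := by
      rw [momentum_eq, birkhoff_eq, mul_div_mul_left _ _ ha0]
    rw [e4]

end Pool.Agent.Results.MP_9ee088_an.NormalDiffusion
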