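import Pool.Agent.X25.PV.E

set_option autoImplicit false

/-!
# Poisson law for the visits of the standard maps to small moving targets

Let `S_a (x, y) = (2x - y + a sin 2πx, x)` on the torus, and let the position at time `k` be the
first coordinate of `S_a^k (x, y)`.  Fix `r` families of targets: for each time `k` the targets are
`r` disjoint arcs of the circle, with centres `c i k` and lengths `2 ρ i k`, arbitrary otherwise
(they may move with the time), and let `visits i` be the number of the times `k < n` at which the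
position is in the `i`-th target.

(1) For every parameter `|a| ≥ 1`, on every horizontal line of initial conditions, the joint
generating function of the visits differs from the one for independent uniform positions by at
most `C (1 + r) √((1 + Λ) n / |a|)`, with `Λ` the sum of the lengths of all the targets and `C`
absolute.

(2) If the targets shrink, the total lengths of the targets of the `i`-th family tend to `λ_i`, and
the times `n` are `o(|a|)`, then the numbers of visits converge jointly to independent Poisson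
variables of parameters `λ_i`, on arbitrary horizontal lines, and no parameter is excluded.
-/

open Real MeasureTheory Filter Topology

namespace Pool.Agent.Results.MP_9ee088_an.PoissonVisits

/-- The torus `ℝ² / ℤ²`. -/
abbrev Torus := UnitAddCircle × UnitAddCircle

/-- `T` is the standard map `S_a` of the torus. -/
def IsStandardMap (a : ℝ) (T : Torus → Torus) : Prop :=
  ∀ x y : ℝ, T ((x : UnitAddCircle), (y : UnitAddCircle)) =
    (((2 * x - y + a * sin (2 * π * x) : ℝ) : UnitAddCircle), (x : UnitAddCircle))

/-- The closed arc of centre `c` and half-length `ρ` on the circle. -/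
def Arc (c : UnitAddCircle) (ρ : ℝ) : Set UnitAddCircle := Metric.closedBall c ρ

/-- `r` families of targets: at each time `k`, the arcs `Arc (c i k) (ρ i k)`, of lengths
`2 ρ i k ≤ 1`, pairwise disjoint. -/
def Targets {r : ℕ} (c : Fin r → ℕ → UnitAddCircle) (ρ : Fin r → ℕ → ℝ) : Prop :=
  (∀ i k, 0 ≤ ρ i k ∧ ρ i k ≤ 1 / 2) ∧
    ∀ k i i', i ≠ i' → Disjoint (Arc (c i k) (ρ i k)) (Arc (c i' k) (ρ i' k))

open Classical in
/-- The number of the times `k < n` at which the position (the first coordinate of `T^k p`) is in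
the arc of centre `c k` and half-length `ρ k`. -/
noncomputable def visits (T : Torus → Torus) (n : ℕ) (c : ℕ → UnitAddCircle) (ρ : ℕ → ℝ)
    (p : Torus) : ℕ :=
  ((Finset.range n).filter (fun k => (T^[k] p).1 ∈ Arc (c k) (ρ k))).card

/-- **Poisson law for the visits to small moving targets.** -/
theorem result :
    -- (1) the joint generating function, all parameters, all horizontal lines, with a rate
    (∃ C : ℝ, 0 < C ∧ ∀ a : ℝ, 1 ≤ |a| → ∀ T : Torus → Torus, IsStandardMap a T →
      ∀ (r n : ℕ) (c : Fin r → ℕ → UnitAddCircle) (ρ : Fin r → ℕ → ℝ), Targets c ρ →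
      ∀ z : Fin r → ℝ, (∀ i, 0 ≤ z i ∧ z i ≤ 1) → ∀ y : UnitAddCircle,
        |(∫ x : UnitAddCircle, ∏ i, z i ^ visits T n (c i) (ρ i) (x, y)) -
            ∏ k ∈ Finset.range n, (1 - ∑ i, (1 - z i) * (2 * ρ i k))| ≤
          C * (1 + r) * √((1 + ∑ k ∈ Finset.range n, ∑ i, 2 * ρ i k) * n / |a|)) ∧
    -- (2) the Poisson law
    (∀ (r : ℕ) (a : ℕ → ℝ) (T : ℕ → Torus → Torus) (n : ℕ → ℕ)
      (c : ℕ → Fin r → ℕ → UnitAddCircle) (ρ : ℕ → Fin r → ℕ → ℝ) (lam : Fin r → ℝ),
      (∀ j, IsStandardMap (a j) (T j)) → (∀ j, Targets (c j) (ρ j)) →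
      Tendsto (fun j => |a j| / (1 + n j)) atTop atTop →
      (∀ ε : ℝ, 0 < ε → ∀ᶠ j in atTop, ∀ i k, k < n j → ρ j i k ≤ ε) →
      (∀ i, Tendsto (fun j => ∑ k ∈ Finset.range (n j), 2 * ρ j i k) atTop (𝓝 (lam i))) →
      ∀ (y : ℕ → UnitAddCircle) (m : Fin r → ℕ),
        Tendsto (fun j => (volume : Measure UnitAddCircle).real
          {x | ∀ i, visits (T j) (n j) (c j i) (ρ j i) (x, y j) = m i}) atTop
          (𝓝 (∏ i, exp (-lam i) * lam i ^ m i / ((m i).factorial : ℝ)))) := by
  have h16 := TH705.SM.l0_ge
  refine ⟨⟨TH705.SM.l0 + 10, by linarith, ?_⟩, ?_⟩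
  · intro a ha T hT r n c ρ hc z hz y
    rw [TH705.SM.eq_S a T hT]
    refine (X25.PV.quant ha n hc hz y).trans ?_
    apply mul_le_mul_of_nonneg_right _ (Real.sqrt_nonneg _)
    have hr : (0:ℝ) ≤ r := Nat.cast_nonneg r
    nlinarith
  · intro r a T n c ρ lam hT hc ha hs hl y m
    have h : ∀ j, T j = TH705.SM.S (a j) := fun j => TH705.SM.eq_S (a j) (T j) (hT j)
    simp_rw [h]
    exact X25.PV.poisson hc ha hs hl y m

end Pool.Agent.Results.MP_9ee088_an.PoissonVisits
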